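import Pool.Agent.helper22.FI.SpecA
import Pool.Agent.helper52.OB.DG1

/-!
# Project fi, row DGW: the central character factors through `L ⊓ cz D`
-/

set_option autoImplicit false

namespace Pool.Agent.FI

open Pool.Agent.helper58.DC Pool.Agent.DI Pool.Agent.GR Pool.Agent.OB

theorem DGW_mem_Cz {G : Type} [Group G] (L : Subgroup G) (y x : G) : x ∈ Cz L y ↔ x ∈ L ∧ y * x = x * y := by
  unfold Cz
  rw [Subgroup.mem_inf, Subgroup.mem_centralizer_iff]
  simp

theorem DGW (h1 : BQA_stmt) (h2 : SYL_stmt) (h3 : DCM_stmt) (h4 : CLS_stmt) (h5 : CCI_stmt) (h6 : CVF_stmt) : DGW_stmt := by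
  intro p M hS G _ _ L ψ hψ D x hDx w hw hwI hwM
  classical
  have : Fact p.Prime := ⟨hS.pr⟩
  obtain ⟨hlin, hmul, hint⟩ := h5 G L ψ hψ
  obtain ⟨k1, k2, k3, k4, k5, -, -, -, -⟩ := h4 G L x
  have hkI : ∀ u, IntAt M (cls L x u) := fun u => IntAt.of_isIntegral hS (k3 u)
  have hCFk : CF L (cls L x) := k2 hDx.mem
  have hccI : ∀ y, IntAt M (cc ψ (cls L y)) := fun y => by
    obtain ⟨-, -, -, -, -, -, -, -, k9⟩ := h4 G L y
    exact IntAt.of_isIntegral hS (k9 L le_rfl ψ hψ)
  have hprod : cc ψ (cv (cls L x) w) = cc ψ (cls L x) * cc ψ w := hmul _ _ hCFk hw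
  -- the claim
  have claim : ∀ y ∈ L, ¬ InM M (cc ψ (cls L y)) → InM M (cv (cls L x) w y) := by
    intro y hyL hy
    have hmin := hDx.min y hyL hy
    obtain ⟨-, hsyl, -⟩ := h2 p G
    obtain ⟨Q, -, hQC, hQp, hQc⟩ := hsyl ⊥ (Cz L y) (IsPGroup.of_bot) bot_le
    have hQL : ∀ q ∈ Q, q ∈ L := fun q hq => ((DGW_mem_Cz L y q).1 (hQC hq)).1
    have hyQ : y ∈ cz Q := by
      rw [Subgroup.mem_centralizer_iff]
      intro q hq
      exact ((DGW_mem_Cz L y q).1 (hQC hq)).2.symm
    have hb := h1 p M hS G Q hQp (cls L x) w (fun r hr => k1 r (hQL r hr)) (fun r hr => hw.1 r (hQL r hr)) hkI hwI y hyQ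
    have h7 : InM M (cv (rsH (cz Q) (cls L x)) (rsH (cz Q) w) y) := by
      unfold cv
      refine InM.finsum hS fun u => ?_
      beta_reduce
      unfold rsH
      by_cases hu : u ∈ cz Q
      swap
      · rw [if_neg hu, zero_mul]; exact InM.zero hS
      by_cases hv : u⁻¹ * y ∈ cz Q
      swap
      · rw [if_neg hv, mul_zero]; exact InM.zero hS
      rcases k5 u with hux | hux
      · rw [if_pos hu, hux, zero_mul]; exact InM.zero hS
      rw [if_pos hv]
      refine InM.mul_left hS ?_ ?_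
      · rw [if_pos hu]; exact hkI u
      -- `u = h x h⁻¹`
      obtain ⟨h, hhL, hh⟩ := (k4 u).1 hux
      set Q' : Subgroup G := Q.map (MulAut.conj h⁻¹).toMonoidHom with hQ'
      have hQ'mem : ∀ a : G, a ∈ Q' → h * a * h⁻¹ ∈ Q := by
        intro a ha
        obtain ⟨q, hq, hqa⟩ := Subgroup.mem_map.1 ha
        have hqa' : h⁻¹ * q * h⁻¹⁻¹ = a := hqa
        rw [← hqa']
        have : h * (h⁻¹ * q * h⁻¹⁻¹) * h⁻¹ = q := by group
        rw [this]; exact hq
      have hQ'card : Nat.card Q' = Nat.card Q :=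
        Nat.card_congr (Q.equivMapOfInjective _ (MulAut.conj h⁻¹).injective).symm.toEquiv
      have hQ'C : Q' ≤ Cz L x := by
        intro a ha
        have ha' := hQ'mem a ha
        refine (DGW_mem_Cz L x a).2 ⟨?_, ?_⟩
        · have e : a = h⁻¹ * (h * a * h⁻¹) * h := by group
          rw [e]
          exact mul_mem (mul_mem (inv_mem hhL) (hQL _ ha')) hhL
        · have h3 := Subgroup.mem_centralizer_iff.1 hu _ ha'
          rw [← hh] at h3
          have h4 : h * (x * a) * h⁻¹ = h * (a * x) * h⁻¹ := by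
            calc h * (x * a) * h⁻¹ = h * x * h⁻¹ * (h * a * h⁻¹) := by group
              _ = h * a * h⁻¹ * (h * x * h⁻¹) := h3.symm
              _ = h * (a * x) * h⁻¹ := by group
          exact mul_left_cancel (mul_right_cancel h4)
      obtain ⟨c, hcC, hcD⟩ := DG1_conj p (Cz L x) D Q' hDx.le hQ'C
        hDx.pg (hQp.map _) hDx.card (by rw [hQ'card, hQc]; exact hmin)
      have hcL : c ∈ L := ((DGW_mem_Cz L x c).1 hcC).1
      have huL : u ∈ L := by
        rw [← hh]
        exact mul_mem (mul_mem hhL hDx.mem) (inv_mem hhL)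
      have hhc : h * c ∈ L := mul_mem hhL hcL
      -- conjugate `u⁻¹ y` into `L ⊓ cz D`
      have h8 : (h * c)⁻¹ * (u⁻¹ * y) * (h * c)⁻¹⁻¹ ∈ L ⊓ cz D := by
        refine Subgroup.mem_inf.2 ⟨?_, ?_⟩
        · exact mul_mem (mul_mem (inv_mem hhc) (mul_mem (inv_mem huL) hyL)) (inv_mem (inv_mem hhc))
        · rw [Subgroup.mem_centralizer_iff]
          intro d hd
          have h9 := hQ'mem _ (hcD d hd)
          have h10 := Subgroup.mem_centralizer_iff.1 hv _ h9
          calc d * ((h * c)⁻¹ * (u⁻¹ * y) * (h * c)⁻¹⁻¹)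
              = (h * c)⁻¹ * (h * (c * d * c⁻¹) * h⁻¹ * (u⁻¹ * y)) * (h * c) := by group
            _ = (h * c)⁻¹ * (u⁻¹ * y * (h * (c * d * c⁻¹) * h⁻¹)) * (h * c) := by rw [h10]
            _ = (h * c)⁻¹ * (u⁻¹ * y) * (h * c)⁻¹⁻¹ * d := by group
      have h11 := hwM _ h8
      rw [hw.1 _ (inv_mem hhc)] at h11
      exact h11
    have h12 := hb.add hS h7
    rwa [sub_add_cancel] at h12
  obtain ⟨-, -, -, -, -, -, -, hCF, -⟩ := h6 G
  have hCFz : CF L (cv (cls L x) w) := (hCF L _ _ hCFk hw).1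
  have hcvI : ∀ y, IntAt M (cv (cls L x) w y) := by
    intro y
    unfold cv
    exact IntAt.finsum hS fun u => (hkI u).mul hS (hwI _)
  have hsum : InM M (cc ψ (cv (cls L x) w)) := by
    refine (((h3 G L M p hS).1 ψ (cv (cls L x) w) hCFz.1 hcvI hccI).2) fun y => ?_
    by_cases hyL : y ∈ L
    · by_cases hc : InM M (cc ψ (cls L y))
      · exact Or.inr hc
      · exact Or.inl (claim y hyL hc)
    · left
      rw [hCFz.2 y hyL]
      exact InM.zero hS
  rw [hprod] at hsum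
  rcases InM.or hS (hccI x) ((hint p M hS w hw.1).1 hwI) hsum with h | h
  · exact absurd h hDx.ne
  · exact h

end Pool.Agent.FI
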