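import Pool.Agent.helper22.FI.SpecA

/-!
# Project fi, row SUP: support of the block idempotent
-/

set_option autoImplicit false

namespace Pool.Agent.FI

open Pool.Agent.helper58.DC Pool.Agent.DI Pool.Agent.GR Pool.Agent.OB

theorem SUP_mem_Cz {G : Type} [Group G] (L : Subgroup G) (y x : G) : x ∈ Cz L y ↔ x ∈ L ∧ y * x = x * y := by
  unfold Cz
  rw [Subgroup.mem_inf, Subgroup.mem_centralizer_iff]
  simp

theorem SUP (h1 : SPW_stmt) (h2 : CFX_stmt) (h3 : CLS_stmt) : SUP_stmt := by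
  intro p M hS G _ _ L ψ hψ a ha hna y hy hny R hR hRa
  obtain ⟨w, hw, hwI, hwc⟩ := h1 p M hS G L ψ hψ y hy hny
  obtain ⟨c1, -, c3, c4, c5, -, -, -, -⟩ := h3 G L y
  have hRL : ∀ r ∈ R, r ∈ L := fun r hr => ((SUP_mem_Cz L a r).1 (hRa hr)).1
  have hRc : ∀ r ∈ R, r * a = a * r := fun r hr => ((SUP_mem_Cz L a r).1 (hRa hr)).2.symm
  have hcv : ¬ InM M (cv (cls L y) w a) := by
    intro h
    apply hna
    have h5 := (hwc a).add hS h
    rwa [sub_add_cancel] at h5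
  have hfI : ∀ x, IntAt M (cls L y x * w (x⁻¹ * a)) := fun x =>
    (IntAt.of_isIntegral hS (c3 x)).mul hS (hwI _)
  have hfR : ∀ r ∈ R, ∀ x, cls L y (r * x * r⁻¹) * w ((r * x * r⁻¹)⁻¹ * a) = cls L y x * w (x⁻¹ * a) := by
    intro r hr x
    have e1 : (r * x * r⁻¹)⁻¹ * a = r * (x⁻¹ * a) * r⁻¹ := by
      have e2 : r⁻¹ * a = a * r⁻¹ := by
        rw [inv_mul_eq_iff_eq_mul, ← mul_assoc, hRc r hr, mul_inv_cancel_right]
      calc (r * x * r⁻¹)⁻¹ * a = r * x⁻¹ * (r⁻¹ * a) := by group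
        _ = r * (x⁻¹ * a) * r⁻¹ := by rw [e2]; group
    rw [e1, c1 r (hRL r hr), hw.1 r (hRL r hr)]
  have hkey := h2 p M hS G R hR (fun x => cls L y x * w (x⁻¹ * a)) hfI hfR
  by_contra hcon
  push Not at hcon
  have hz : ∑ᶠ x ∈ (cz R : Set G), cls L y x * w (x⁻¹ * a) = 0 := by
    rw [finsum_mem_congr rfl (g := fun _ => (0 : ℂ)) ?_]
    · simp
    · intro x hx
      rcases c5 x with h | h
      · rw [h, zero_mul]
      · exfalso
        obtain ⟨l, hl, hlx⟩ := (c4 x).1 h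
        obtain ⟨r, hr, hrn⟩ := hcon l hl
        apply hrn
        refine (SUP_mem_Cz L y _).2 ⟨mul_mem (mul_mem (inv_mem hl) (hRL r hr)) hl, ?_⟩
        have hx' : r * x = x * r := by
          have := (Subgroup.mem_centralizer_iff.1 hx) r hr
          exact this
        have hzx : y = l⁻¹ * x * l := by rw [← hlx]; group
        rw [hzx]
        calc l⁻¹ * x * l * (l⁻¹ * r * l) = l⁻¹ * (x * r) * l := by group
          _ = l⁻¹ * (r * x) * l := by rw [hx']
          _ = l⁻¹ * r * l * (l⁻¹ * x * l) := by group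
  rw [hz, sub_zero] at hkey
  exact hcv hkey

end Pool.Agent.FI
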